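import Pool.Agent.H16R3.Curv.Conv

set_option autoImplicit false

/-!
# Ricci flow invariant cones containing nonnegative sectional curvature

For every `n ≥ 4`, so in particular for every odd `n ≥ 5`, the cone of curvature operators with
nonnegative scalar curvature is the only Ricci flow invariant curvature cone that contains all
curvature operators with nonnegative sectional curvature.

Sketch of the proof.  Let `ℝ⁴ ⊆ ℝⁿ`, let `I₄` be the identity of `Λ²ℝ⁴` and `W` the Weyl part of the
curvature operator of `ℂP²`, both extended by zero to `Λ²ℝⁿ`.  Then `I₄ + W` has nonnegative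
sectional curvature and `t ↦ I₄ / (1 - 3 t) + W / (1 - 6 t)` solves the ODE; rescaling at `t → 1/6`
gives `W ∈ C`.  Hence the cone contains the line of `W` and of all its rotations.  Feeding large
multiples of `W` into the ODE and using that `I` is an interior point, one finds a trace free
operator of Ricci type in `C`.  Finally the operators orthogonal to all rotations of these two
operators are the multiples of the identity, and a separation argument finishes the proof.
-/

open Pool.Agent.H16R3.Curv

namespace Pool.Agent.Results.MP_3d035a_gt.OnlyScalCone

/-- Let `n ≥ 4` and let `C` be a set of algebraic curvature operators on `ℝⁿ`. Then `C` is a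
curvature cone (closed, convex, `O(n)`-invariant, with the identity in its interior, and not the
whole space) that is Ricci flow invariant and contains every operator with nonnegative sectional
curvature if and only if `C` is the cone of operators with nonnegative scalar curvature. -/
theorem result (n : ℕ) (hn : 4 ≤ n) (C : Set (Tensor4 n)) :
    (IsCurvatureCone n C ∧ (∃ R ∈ CurvOp n, R ∉ C) ∧ RicciFlowInvariant C ∧
      ∀ R ∈ CurvOp n, NonnegSec R → R ∈ C) ↔
    C = {R : Tensor4 n | R ∈ CurvOp n ∧ 0 ≤ scal R} := by
  constructor
  · rintro ⟨hC, hne, hRF, hsec⟩
    exact main hn hC hne hRF hsec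
  · rintro rfl
    refine ⟨scalCone_isCurvatureCone hn, ⟨(-1 : ℝ) • idOp n, (CurvOp n).smul_mem _ idOp_mem, ?_⟩,
      scal_invariant, fun R hR hs => ⟨hR, scal_nonneg_of_sec hR hs⟩⟩
    rintro ⟨-, h⟩
    rw [scal_smul] at h
    linarith [scal_idOp_pos hn]

end Pool.Agent.Results.MP_3d035a_gt.OnlyScalCone
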